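import Mathlib
import Pool.Agent.Helpers.H19DavDefs
import Pool.Agent.Helpers.H19DavP

set_option autoImplicit false
open scoped NNReal
open H19PF H19Dav

namespace Pool.Agent.Results.MP_5fed26_pr.CriticalValue

/-- `I(M) = 0` for `0 < M ≤ 1/e`, and `0 < I(M) ≤ 1 + log M` for `1/e < M ≤ 1`; in particular the
threshold `c` equals `1/e`. In every case the set whose infimum is `I(M)` is nonempty. -/
theorem result :
    (∀ M : ℝ, 0 < M → M ≤ 1 → (mins M).Nonempty) ∧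
    (∀ M : ℝ, 0 < M → M ≤ Real.exp (-1) → IM M = 0) ∧
    (∀ M : ℝ, Real.exp (-1) < M → M ≤ 1 → 0 < IM M ∧ IM M ≤ 1 + Real.log M) ∧
    sInf {M : ℝ | 0 < M ∧ M ≤ 1 ∧ 0 < IM M} = Real.exp (-1) := by
  refine ⟨fun M h0 h1 => ?_, fun M h0 h => (IM_zero M h0 h).2, fun M h h1 =>
    ⟨IM_pos M h h1, (IM_le M h h1).2⟩, crit⟩
  rcases le_or_gt M (Real.exp (-1)) with h | h
  · exact (IM_zero M h0 h).1
  · exact (IM_le M h h1).1

end Pool.Agent.Results.MP_5fed26_pr.CriticalValue
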